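import Mathlib

/-! The number of zero patterns of a sequence of polynomials (Ronyai, Babai, Ganapathy). -/

set_option autoImplicit false

namespace Pool.Agent.Helper71.Cliq

open Finset MvPolynomial

universe u

theorem zero_patterns {F : Type u} [Field F] {σ A I : Type} [Fintype σ] [Fintype A] [Fintype I]
    (d : ℕ) (Q : A → MvPolynomial σ F) (hQ : ∀ a, (Q a).totalDegree ≤ d) (π : I → σ → F)
    (hinj : ∀ i j, (∀ a, eval (π i) (Q a) ≠ 0 ↔ eval (π j) (Q a) ≠ 0) → i = j) :
    Fintype.card I ≤ (Fintype.card A * d + 1) ^ Fintype.card σ := by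
  classical
  set D := Fintype.card A * d with hD
  let S : I → Finset A := fun i => Finset.univ.filter fun a => eval (π i) (Q a) ≠ 0
  let g : I → MvPolynomial σ F := fun i => ∏ a ∈ S i, Q a
  have hdeg : ∀ i, (g i).totalDegree ≤ D := by
    intro i
    refine (totalDegree_finsetProd _ _).trans ?_
    calc ∑ a ∈ S i, (Q a).totalDegree ≤ ∑ a ∈ S i, d := Finset.sum_le_sum fun a _ => hQ a
      _ ≤ ∑ a : A, d := Finset.sum_le_sum_of_subset (Finset.subset_univ _)
      _ = D := by rw [Finset.sum_const, Finset.card_univ, smul_eq_mul]
  have heval : ∀ i j, eval (π i) (g j) ≠ 0 → S j ⊆ S i := by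
    intro i j h a ha
    rw [Finset.mem_filter]
    refine ⟨Finset.mem_univ _, fun h0 => h ?_⟩
    simp only [g]
    rw [map_prod]
    exact Finset.prod_eq_zero ha h0
  have hself : ∀ i, eval (π i) (g i) ≠ 0 := by
    intro i
    simp only [g]
    rw [map_prod, Finset.prod_ne_zero_iff]
    intro a ha
    exact (Finset.mem_filter.1 ha).2
  let Φ : MvPolynomial σ F →ₗ[F] ((σ → Fin (D + 1)) → F) :=
    { toFun := fun f e => coeff (Finsupp.equivFunOnFinite.symm fun i => (e i : ℕ)) f
      map_add' := fun f f' => by funext e; simp
      map_smul' := fun c f => by funext e; simp }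
  have hΦ : ∀ f : MvPolynomial σ F, f.totalDegree ≤ D → Φ f = 0 → f = 0 := by
    intro f hf h0
    ext e
    rw [coeff_zero]
    by_contra hne
    have he : e ∈ f.support := by rwa [mem_support_iff]
    have hle : ∀ i, e i < D + 1 := by
      intro i
      have h1 : e i ≤ e.sum fun _ n => n := by
        rcases Nat.eq_zero_or_pos (e i) with h | h
        · omega
        · rw [Finsupp.sum]
          exact Finset.single_le_sum (f := fun i => e i) (fun _ _ => Nat.zero_le _)
            (by rw [Finsupp.mem_support_iff]; omega)
      have h2 := le_totalDegree he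
      omega
    have h3 := congrFun h0 (fun i => ⟨e i, hle i⟩)
    have h4 : (Finsupp.equivFunOnFinite.symm fun i => ((⟨e i, hle i⟩ : Fin (D + 1)) : ℕ)) = e := by
      ext i
      simp
    apply hne
    have h5 : coeff (Finsupp.equivFunOnFinite.symm
      fun i => ((⟨e i, hle i⟩ : Fin (D + 1)) : ℕ)) f = 0 := h3
    rwa [h4] at h5
  have hli : LinearIndependent F fun i => Φ (g i) := by
    rw [linearIndependent_iff']
    intro s c hc i hi
    by_contra hci
    obtain ⟨i₀, hi₀, hmin⟩ := Finset.exists_min_image (s.filter fun j => c j ≠ 0)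
      (fun j => (S j).card) ⟨i, by rw [Finset.mem_filter]; exact ⟨hi, hci⟩⟩
    rw [Finset.mem_filter] at hi₀
    have hf : ∑ j ∈ s, c j • g j = 0 := by
      apply hΦ
      · refine totalDegree_finsetSum_le fun j _ => ?_
        exact (totalDegree_smul_le _ _).trans (hdeg j)
      · rw [map_sum]
        simp_rw [map_smul]
        exact hc
    have h1 := congrArg (eval (π i₀)) hf
    rw [map_sum, map_zero, Finset.sum_eq_single i₀] at h1
    · rw [smul_eval] at h1
      rcases mul_eq_zero.1 h1 with h | h
      · exact hi₀.2 h
      · exact hself i₀ h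
    · intro j hj hji
      rw [smul_eval]
      by_cases hcj : c j = 0
      · rw [hcj, zero_mul]
      · by_cases hev : eval (π i₀) (g j) = 0
        · rw [hev, mul_zero]
        · exfalso
          have hsub := heval i₀ j hev
          have hcard := hmin j (by rw [Finset.mem_filter]; exact ⟨hj, hcj⟩)
          have heq := Finset.eq_of_subset_of_card_le hsub hcard
          apply hji
          apply hinj
          intro a
          have : a ∈ S j ↔ a ∈ S i₀ := by rw [heq]
          simpa [S] using this
    · intro h
      exact absurd hi₀.1 h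
  have h2 := hli.fintype_card_le_finrank
  rw [Module.finrank_fintype_fun_eq_card, Fintype.card_fun, Fintype.card_fin] at h2
  exact h2

end Pool.Agent.Helper71.Cliq
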