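import Pool.Agent.Helper71.Cliq.Rand
import Pool.Agent.Helper71.Cliq.ZP

/-! Arithmetic formulas which vanish exactly on the graphs without a large clique. -/

set_option autoImplicit false

namespace Pool.Agent.Helper71.Cliq

open Finset

universe u

/-- Arithmetic formulas over `F` in the variables `V`. -/
inductive AForm (F : Type u) (V : Type) : Type u
  | const : F → AForm F V
  | var : V → AForm F V
  | add : AForm F V → AForm F V → AForm F V
  | mul : AForm F V → AForm F V → AForm F V

namespace AForm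

variable {F : Type u} {V : Type}

/-- The value of a formula. -/
def eval [Field F] (x : V → F) : AForm F V → F
  | const c => c
  | var v => x v
  | add a b => a.eval x + b.eval x
  | mul a b => a.eval x * b.eval x

/-- The size of a formula: the number of its leaves that are labelled by variables. -/
def size : AForm F V → ℕ
  | const _ => 0
  | var _ => 1
  | add a b => a.size + b.size
  | mul a b => a.size + b.size

/-- The number of leaves labelled by variables in `D`. -/
def leavesIn [DecidableEq V] (D : Finset V) : AForm F V → ℕ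
  | const _ => 0
  | var v => if v ∈ D then 1 else 0
  | add a b => a.leavesIn D + b.leavesIn D
  | mul a b => a.leavesIn D + b.leavesIn D

theorem sum_leavesIn [DecidableEq V] {I : Type} (s : Finset I) (D : I → Finset V)
    (hD : ∀ p q, p ≠ q → Disjoint (D p) (D q)) (φ : AForm F V) :
    ∑ p ∈ s, φ.leavesIn (D p) ≤ φ.size := by
  classical
  induction φ with
  | const c => simp [leavesIn, size]
  | var v =>
    simp only [leavesIn, size]
    rw [Finset.sum_boole]
    simp only [Nat.cast_id]
    rw [Finset.card_le_one]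
    intro p hp q hq
    rw [Finset.mem_filter] at hp hq
    by_contra hne
    exact Finset.disjoint_left.1 (hD p q hne) hp.2 hq.2
  | add a b iha ihb =>
    simp only [leavesIn, size]
    rw [Finset.sum_add_distrib]
    exact Nat.add_le_add iha ihb
  | mul a b iha ihb =>
    simp only [leavesIn, size]
    rw [Finset.sum_add_distrib]
    exact Nat.add_le_add iha ihb

/-- The assignment which is `b` on `D` and `y` outside `D`. -/
def mix [DecidableEq V] (D : Finset V) (b y : V → F) (v : V) : F :=
  if v ∈ D then b v else y v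

theorem sub_const [Field F] [DecidableEq V] (D : Finset V) (φ : AForm F V)
    (h : φ.leavesIn D = 0) (y : V → F) : ∃ c : F, ∀ b, φ.eval (mix D b y) = c := by
  induction φ with
  | const c => exact ⟨c, fun b => rfl⟩
  | var v =>
    simp only [leavesIn] at h
    have hv : v ∉ D := fun hv => by simp [hv] at h
    exact ⟨y v, fun b => by simp [eval, mix, hv]⟩
  | add a b iha ihb =>
    simp only [leavesIn] at h
    obtain ⟨c, hc⟩ := iha (by omega)
    obtain ⟨d, hd⟩ := ihb (by omega)
    exact ⟨c + d, fun x => by simp only [eval, hc, hd]⟩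
  | mul a b iha ihb =>
    simp only [leavesIn] at h
    obtain ⟨c, hc⟩ := iha (by omega)
    obtain ⟨d, hd⟩ := ihb (by omega)
    exact ⟨c * d, fun x => by simp only [eval, hc, hd]⟩

open MvPolynomial in
/-- The subfunctions on `D` are given by few parameters. -/
theorem sub_param [Field F] [DecidableEq V] (D : Finset V) (φ : AForm F V)
    (h : 1 ≤ φ.leavesIn D) :
    ∃ (M : Type) (_ : Fintype M) (Q : (V → F) → MvPolynomial M F),
      Fintype.card M + 1 ≤ 3 * φ.leavesIn D ∧ (∀ b, (Q b).totalDegree ≤ φ.leavesIn D) ∧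
      ∀ (y : V → F) (α β : F), ∃ π : M → F,
        ∀ b, α * φ.eval (mix D b y) + β = MvPolynomial.eval π (Q b) := by
  classical
  induction φ with
  | const c => simp [leavesIn] at h
  | var v =>
    simp only [leavesIn] at h ⊢
    have hv : v ∈ D := by
      by_contra hv
      simp [hv] at h
    refine ⟨Bool, inferInstance, fun b => X false * C (b v) + X true, ?_, ?_, ?_⟩
    · simp [hv]
    · intro b
      rw [if_pos hv]
      refine (totalDegree_add _ _).trans (max_le ?_ ?_)
      · refine (totalDegree_mul _ _).trans ?_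
        rw [totalDegree_X, totalDegree_C]
      · rw [totalDegree_X]
    · intro y α β
      refine ⟨fun z => if z then β else α, fun b => ?_⟩
      simp [AForm.eval, mix, hv]
  | add a b iha ihb =>
    simp only [leavesIn] at h ⊢
    rcases Nat.eq_zero_or_pos (a.leavesIn D) with ha | ha
    · rcases Nat.eq_zero_or_pos (b.leavesIn D) with hb | hb
      · omega
      · obtain ⟨M, hM, Q, h1, h2, h3⟩ := ihb hb
        refine ⟨M, hM, Q, by omega, fun x => (h2 x).trans (by omega), ?_⟩
        intro y α β
        obtain ⟨c, hc⟩ := sub_const D a ha y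
        obtain ⟨π, hπ⟩ := h3 y α (α * c + β)
        refine ⟨π, fun x => ?_⟩
        rw [← hπ]
        simp only [AForm.eval, hc]
        ring
    · rcases Nat.eq_zero_or_pos (b.leavesIn D) with hb | hb
      · obtain ⟨M, hM, Q, h1, h2, h3⟩ := iha ha
        refine ⟨M, hM, Q, by omega, fun x => (h2 x).trans (by omega), ?_⟩
        intro y α β
        obtain ⟨c, hc⟩ := sub_const D b hb y
        obtain ⟨π, hπ⟩ := h3 y α (α * c + β)
        refine ⟨π, fun x => ?_⟩
        rw [← hπ]
        simp only [AForm.eval, hc]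
        ring
      · obtain ⟨M, hM, Q, h1, h2, h3⟩ := iha ha
        obtain ⟨N, hN, R, g1, g2, g3⟩ := ihb hb
        refine ⟨M ⊕ N, inferInstance, fun x => rename Sum.inl (Q x) + rename Sum.inr (R x),
          ?_, ?_, ?_⟩
        · rw [Fintype.card_sum]
          omega
        · intro x
          refine (totalDegree_add _ _).trans (max_le ?_ ?_)
          · exact (totalDegree_rename_le _ _).trans ((h2 x).trans (by omega))
          · exact (totalDegree_rename_le _ _).trans ((g2 x).trans (by omega))
        · intro y α β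
          obtain ⟨π, hπ⟩ := h3 y α β
          obtain ⟨ρ, hρ⟩ := g3 y α 0
          refine ⟨Sum.elim π ρ, fun x => ?_⟩
          rw [map_add, eval_rename, eval_rename, Sum.elim_comp_inl, Sum.elim_comp_inr,
            ← hπ, ← hρ]
          simp only [AForm.eval]
          ring
  | mul a b iha ihb =>
    simp only [leavesIn] at h ⊢
    rcases Nat.eq_zero_or_pos (a.leavesIn D) with ha | ha
    · rcases Nat.eq_zero_or_pos (b.leavesIn D) with hb | hb
      · omega
      · obtain ⟨M, hM, Q, h1, h2, h3⟩ := ihb hb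
        refine ⟨M, hM, Q, by omega, fun x => (h2 x).trans (by omega), ?_⟩
        intro y α β
        obtain ⟨c, hc⟩ := sub_const D a ha y
        obtain ⟨π, hπ⟩ := h3 y (α * c) β
        refine ⟨π, fun x => ?_⟩
        rw [← hπ]
        simp only [AForm.eval, hc]
        ring
    · rcases Nat.eq_zero_or_pos (b.leavesIn D) with hb | hb
      · obtain ⟨M, hM, Q, h1, h2, h3⟩ := iha ha
        refine ⟨M, hM, Q, by omega, fun x => (h2 x).trans (by omega), ?_⟩
        intro y α β
        obtain ⟨c, hc⟩ := sub_const D b hb y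
        obtain ⟨π, hπ⟩ := h3 y (α * c) β
        refine ⟨π, fun x => ?_⟩
        rw [← hπ]
        simp only [AForm.eval, hc]
        ring
      · obtain ⟨M, hM, Q, h1, h2, h3⟩ := iha ha
        obtain ⟨N, hN, R, g1, g2, g3⟩ := ihb hb
        refine ⟨(M ⊕ N) ⊕ Unit, inferInstance,
          fun x => rename (fun z => Sum.inl (Sum.inl z)) (Q x) *
            rename (fun z => Sum.inl (Sum.inr z)) (R x) + X (Sum.inr ()), ?_, ?_, ?_⟩
        · rw [Fintype.card_sum, Fintype.card_sum, Fintype.card_unit]
          omega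
        · intro x
          refine (totalDegree_add _ _).trans (max_le ?_ ?_)
          · refine (totalDegree_mul _ _).trans (Nat.add_le_add ?_ ?_)
            · exact (totalDegree_rename_le _ _).trans (h2 x)
            · exact (totalDegree_rename_le _ _).trans (g2 x)
          · rw [totalDegree_X]
            omega
        · intro y α β
          obtain ⟨π, hπ⟩ := h3 y α 0
          obtain ⟨ρ, hρ⟩ := g3 y 1 0
          refine ⟨Sum.elim (Sum.elim π ρ) (fun _ => β), fun x => ?_⟩
          have e1 : (Sum.elim (Sum.elim π ρ) (fun _ : Unit => β)) ∘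
              (fun z : M => (Sum.inl (Sum.inl z) : (M ⊕ N) ⊕ Unit)) = π := by funext z; rfl
          have e2 : (Sum.elim (Sum.elim π ρ) (fun _ : Unit => β)) ∘
              (fun z : N => (Sum.inl (Sum.inr z) : (M ⊕ N) ⊕ Unit)) = ρ := by funext z; rfl
          rw [map_add, map_mul, eval_rename, eval_rename, e1, e2, eval_X, ← hπ, ← hρ]
          simp only [AForm.eval, Sum.elim_inr]
          ring

end AForm

/-- The assignment of a graph in a field. -/
noncomputable def ind (F : Type u) [Field F] {n : ℕ} (G : SimpleGraph (Fin n))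
    (e : Sym2 (Fin n)) : F :=
  if chi G e then 1 else 0

theorem block_alg {n s t : ℕ} (hs : 1 ≤ s) (ι : GV s t ↪ Fin n) (F : Type u) [Field F]
    (φ : AForm F (Sym2 (Fin n)))
    (hφ : ∀ (T : Ad s → Bool) (a : Ad s), φ.eval (ind F (gr ι T a)) ≠ 0 ↔ T a = true) :
    4 ^ s ≤ 15 * s * φ.leavesIn (blk ι) := by
  classical
  set l := φ.leavesIn (blk ι) with hl
  let T₀ : (Fin s → Bool) → (Fin s → Bool) → Bool := fun _ _ => false
  let b₀ : Fin s ⊕ Fin s → Bool := fun _ => false
  let bb : Ad s → Sym2 (Fin n) → F := fun a => ind F (inst ι T₀ (Sum.elim a.1 a.2))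
  let yy : (Ad s → Bool) → Sym2 (Fin n) → F := fun T => ind F (inst ι (fun A B => T (A, B)) b₀)
  have hmix : ∀ (T : Ad s → Bool) (a : Ad s),
      ind F (gr ι T a) = AForm.mix (blk ι) (bb a) (yy T) := by
    intro T a
    funext e
    have h := congrFun (chi_mix ι (fun A B => T (A, B)) T₀ (Sum.elim a.1 a.2) b₀) e
    by_cases he : e ∈ blk ι
    · simp only [if_pos he] at h
      simp only [ind, gr, AForm.mix, bb, if_pos he, h]
    · simp only [if_neg he] at h
      simp only [ind, gr, AForm.mix, yy, if_neg he, h]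
  have hs4 : 4 ≤ 4 ^ s := by
    calc 4 = 4 ^ 1 := by norm_num
      _ ≤ 4 ^ s := Nat.pow_le_pow_right (by norm_num) hs
  rcases Nat.eq_zero_or_pos l with h0 | h0
  · exfalso
    let a₁ : Ad s := (fun _ => true, fun _ => true)
    let a₂ : Ad s := (fun _ => false, fun _ => true)
    have hne : a₂ ≠ a₁ := by
      intro h
      have := congrFun (congrArg Prod.fst h) ⟨0, by omega⟩
      simp [a₁, a₂] at this
    let T : Ad s → Bool := fun a => decide (a = a₁)
    obtain ⟨c, hc⟩ := AForm.sub_const (blk ι) φ h0 (yy T)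
    have h1 := hφ T a₁
    have h2 := hφ T a₂
    rw [hmix, hc] at h1 h2
    have h3 : T a₁ = true := by simp [T]
    have h4 : ¬ (T a₂ = true) := by simp [T, hne]
    exact h4 (h2.1 (h1.2 h3))
  · obtain ⟨M, hM, Q, h1, h2, h3⟩ := AForm.sub_param (blk ι) φ h0
    choose π hπ using fun T : Ad s → Bool => h3 (yy T) 1 0
    have hcard := zero_patterns (I := Ad s → Bool) l (fun a : Ad s => Q (bb a))
      (fun a => h2 _) π (by
        intro T T' h
        funext a
        have h4 := h a
        rw [← hπ, ← hπ, one_mul, add_zero, one_mul, add_zero, ← hmix, ← hmix, hφ, hφ] at h4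
        exact Bool.eq_iff_iff.2 h4)
    rw [Fintype.card_fun, Fintype.card_bool, card_Ad] at hcard
    rcases le_or_gt l (4 ^ s) with hle | hgt
    · -- `4 ^ s * l + 1 ≤ 2 ^ (4 * s + 1)`
      have h5 : 4 ^ s * l + 1 ≤ 2 ^ (4 * s + 1) := by
        calc 4 ^ s * l + 1 ≤ 4 ^ s * 4 ^ s + 1 := Nat.add_le_add_right (Nat.mul_le_mul_left _ hle) 1
          _ ≤ 4 ^ s * 4 ^ s + 4 ^ s * 4 ^ s := Nat.add_le_add_left (Nat.one_le_iff_ne_zero.2
              (by positivity)) _
          _ = 2 ^ (4 * s + 1) := by
              rw [show (4 : ℕ) = 2 ^ 2 by norm_num, ← pow_mul, ← pow_add, pow_succ]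
              ring_nf
      have h6 : 2 ^ (4 ^ s) ≤ 2 ^ ((4 * s + 1) * Fintype.card M) := by
        calc 2 ^ (4 ^ s) ≤ (4 ^ s * l + 1) ^ Fintype.card M := hcard
          _ ≤ (2 ^ (4 * s + 1)) ^ Fintype.card M := Nat.pow_le_pow_left h5 _
          _ = 2 ^ ((4 * s + 1) * Fintype.card M) := (pow_mul _ _ _).symm
      have h7 : 4 ^ s ≤ (4 * s + 1) * Fintype.card M := (Nat.pow_le_pow_iff_right (by norm_num)).1 h6
      calc 4 ^ s ≤ (4 * s + 1) * Fintype.card M := h7
        _ ≤ (5 * s) * (3 * l) := Nat.mul_le_mul (by omega) (by omega)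
        _ = 15 * s * l := by ring
    · calc 4 ^ s ≤ l := hgt.le
        _ ≤ 15 * s * l := Nat.le_mul_of_pos_left _ (by positivity)

/-- Arithmetic formulas which vanish exactly on the graphs without a `k`-clique. -/
theorem alg_main (ε : ℝ) (hε : 0 < ε) :
    ∃ c : ℝ, 0 < c ∧ ∃ n₀ : ℕ, ∀ n : ℕ, n₀ ≤ n → ∀ k : ℕ,
      2 * Real.logb 2 n + 1 ≤ k → (k : ℝ) ≤ (1 - ε) * n →
      ∀ (F : Type u) [Field F] (φ : AForm F (Sym2 (Fin n))),
        (∀ G : SimpleGraph (Fin n), φ.eval (ind F G) ≠ 0 ↔ ¬ G.CliqueFree k) →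
        c * (n : ℝ) ^ 4 / Real.log n ^ 2 ≤ φ.size := by
  classical
  obtain ⟨n₁, hn₁, hp⟩ := params ε hε
  refine ⟨ε ^ 2 / 4423680, by positivity, max n₁ 2, ?_⟩
  intro n hn k hk1 hk2 F _ φ hφ
  have hn1 : n₁ ≤ n := le_trans (le_max_left _ _) hn
  have hn3 : 2 ≤ n := le_trans (le_max_right _ _) hn
  have hnR : (2 : ℝ) ≤ n := by exact_mod_cast hn3
  have hlog0 : 0 < Real.log n := Real.log_pos (by linarith)
  obtain ⟨s, t, hs, rfl, hcard, h4s, hs4, hsl, hblocks⟩ := hp n hn1 k hk1 hk2
  obtain ⟨ι, hι⟩ := exists_blocks (n := n) (s := s) (t := t) hcard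
  have hblk : ∀ p, 4 ^ s ≤ 15 * s * φ.leavesIn (blk (ι p)) := fun p =>
    block_alg hs (ι p) F φ (fun T a => by rw [hφ, gr_clique])
  have hsum : (n / 2 * (n / 2 / (4 * s))) * 4 ^ s ≤ 15 * s * φ.size := by
    calc (n / 2 * (n / 2 / (4 * s))) * 4 ^ s =
          ∑ _p : Fin (n / 2) × Fin (n / 2 / (4 * s)), 4 ^ s := by
          rw [Finset.sum_const, Finset.card_univ, Fintype.card_prod, Fintype.card_fin,
            Fintype.card_fin, smul_eq_mul]
      _ ≤ ∑ p : Fin (n / 2) × Fin (n / 2 / (4 * s)), 15 * s * φ.leavesIn (blk (ι p)) :=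
          Finset.sum_le_sum fun p _ => hblk p
      _ = 15 * s * ∑ p : Fin (n / 2) × Fin (n / 2 / (4 * s)), φ.leavesIn (blk (ι p)) := by
          rw [Finset.mul_sum]
      _ ≤ 15 * s * φ.size := Nat.mul_le_mul_left _
          (AForm.sum_leavesIn Finset.univ (fun p => blk (ι p)) hι φ)
  have hsumR : ((n / 2 * (n / 2 / (4 * s)) : ℕ) : ℝ) * 4 ^ s ≤ 15 * s * φ.size := by
    exact_mod_cast hsum
  have h1 : ((n : ℝ) ^ 2 / (144 * Real.log n)) * (ε ^ 2 * (n : ℝ) ^ 2 / 1024) ≤
      15 * s * φ.size :=
    (mul_le_mul hblocks h4s (by positivity) (Nat.cast_nonneg _)).trans hsumR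
  have h2 : 15 * (s : ℝ) * φ.size ≤ 30 * Real.log n * φ.size := by
    apply mul_le_mul_of_nonneg_right _ (Nat.cast_nonneg _)
    linarith
  have h3 := h1.trans h2
  have h4 : ε ^ 2 / 4423680 * (n : ℝ) ^ 4 / Real.log n ^ 2 =
      ((n : ℝ) ^ 2 / (144 * Real.log n)) * (ε ^ 2 * (n : ℝ) ^ 2 / 1024) / (30 * Real.log n) := by
    field_simp
    ring
  rw [h4, div_le_iff₀ (by positivity)]
  linarith

end Pool.Agent.Helper71.Cliq
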