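import Mathlib

/-! Boolean formulas over the full binary basis and the number of their subfunctions. -/

set_option autoImplicit false

namespace Pool.Agent.Helper71.Cliq

open Finset

/-- Boolean formulas whose gates are arbitrary Boolean functions of two bits. -/
inductive BForm (V : Type) : Type
  | const : Bool → BForm V
  | var : V → BForm V
  | gate : (Bool → Bool → Bool) → BForm V → BForm V → BForm V

namespace BForm

variable {V : Type}

/-- The value of a formula. -/
def eval (x : V → Bool) : BForm V → Bool
  | const c => c
  | var v => x v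
  | gate g a b => g (a.eval x) (b.eval x)

/-- The size of a formula: the number of its leaves that are labelled by variables. -/
def size : BForm V → ℕ
  | const _ => 0
  | var _ => 1
  | gate _ a b => a.size + b.size

/-- The number of leaves labelled by variables in `D`. -/
def leavesIn [DecidableEq V] (D : Finset V) : BForm V → ℕ
  | const _ => 0
  | var v => if v ∈ D then 1 else 0
  | gate _ a b => a.leavesIn D + b.leavesIn D

theorem sum_leavesIn [DecidableEq V] {I : Type} (s : Finset I) (D : I → Finset V)
    (hD : ∀ p q, p ≠ q → Disjoint (D p) (D q)) (φ : BForm V) :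
    ∑ p ∈ s, φ.leavesIn (D p) ≤ φ.size := by
  classical
  induction φ with
  | const c => simp [leavesIn, size]
  | var v =>
    simp only [leavesIn, size]
    rw [Finset.sum_boole]
    simp only [Nat.cast_id]
    rw [Finset.card_le_one]
    intro p hp q hq
    rw [Finset.mem_filter] at hp hq
    by_contra hne
    exact Finset.disjoint_left.1 (hD p q hne) hp.2 hq.2
  | gate g a b iha ihb =>
    simp only [leavesIn, size]
    rw [Finset.sum_add_distrib]
    exact Nat.add_le_add iha ihb

/-- The assignment which is `b` on `D` and `y` outside `D`. -/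
def mix [DecidableEq V] (D : Finset V) (b y : V → Bool) (v : V) : Bool :=
  if v ∈ D then b v else y v

theorem sub_const [DecidableEq V] (D : Finset V) (φ : BForm V) (h : φ.leavesIn D = 0)
    (y : V → Bool) : ∃ c : Bool, ∀ b, φ.eval (mix D b y) = c := by
  induction φ with
  | const c => exact ⟨c, fun b => rfl⟩
  | var v =>
    simp only [leavesIn] at h
    have hv : v ∉ D := fun hv => by simp [hv] at h
    exact ⟨y v, fun b => by simp [eval, mix, hv]⟩
  | gate g a b iha ihb =>
    simp only [leavesIn] at h
    obtain ⟨c, hc⟩ := iha (by omega)
    obtain ⟨d, hd⟩ := ihb (by omega)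
    exact ⟨g c d, fun x => by simp only [eval, hc, hd]⟩

/-- The number of subfunctions on `D`, closed under unary functions. -/
theorem sub_count [DecidableEq V] (D : Finset V) (φ : BForm V) (h : 1 ≤ φ.leavesIn D) :
    ∃ S : Finset ((V → Bool) → Bool), 16 * S.card ≤ 64 ^ φ.leavesIn D ∧
      ∀ (y : V → Bool) (u : Bool → Bool), (fun b => u (φ.eval (mix D b y))) ∈ S := by
  classical
  induction φ with
  | const c => simp [leavesIn] at h
  | var v =>
    simp only [leavesIn] at h ⊢
    have hv : v ∈ D := by
      by_contra hv
      simp [hv] at h
    refine ⟨Finset.univ.image (fun u : Bool → Bool => fun b : V → Bool => u (b v)), ?_, ?_⟩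
    · have : (Finset.univ.image (fun u : Bool → Bool => fun b : V → Bool => u (b v))).card ≤ 4 := by
        refine le_trans Finset.card_image_le ?_
        simp
      rw [if_pos hv]
      omega
    · intro y u
      rw [Finset.mem_image]
      refine ⟨u, Finset.mem_univ _, ?_⟩
      funext b
      simp [eval, mix, hv]
  | gate g a b iha ihb =>
    simp only [leavesIn] at h ⊢
    rcases Nat.eq_zero_or_pos (a.leavesIn D) with ha | ha
    · rcases Nat.eq_zero_or_pos (b.leavesIn D) with hb | hb
      · omega
      · obtain ⟨S, hS, hS'⟩ := ihb hb
        refine ⟨S, by rw [ha, Nat.zero_add]; exact hS, ?_⟩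
        intro y u
        obtain ⟨c, hc⟩ := sub_const D a ha y
        have := hS' y (fun z => u (g c z))
        simp only [eval, hc]
        exact this
    · rcases Nat.eq_zero_or_pos (b.leavesIn D) with hb | hb
      · obtain ⟨S, hS, hS'⟩ := iha ha
        refine ⟨S, by rw [hb, Nat.add_zero]; exact hS, ?_⟩
        intro y u
        obtain ⟨c, hc⟩ := sub_const D b hb y
        have := hS' y (fun z => u (g z c))
        simp only [eval, hc]
        exact this
      · obtain ⟨S, hS, hS'⟩ := iha ha
        obtain ⟨R, hR, hR'⟩ := ihb hb
        refine ⟨Finset.univ.image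
          (fun p : (Bool → Bool → Bool) × S × R => fun x => p.1 (p.2.1.1 x) (p.2.2.1 x)), ?_, ?_⟩
        · have h1 : (Finset.univ.image
            (fun p : (Bool → Bool → Bool) × S × R => fun x => p.1 (p.2.1.1 x) (p.2.2.1 x))).card
              ≤ 16 * (S.card * R.card) := by
            refine le_trans Finset.card_image_le ?_
            rw [Finset.card_univ, Fintype.card_prod, Fintype.card_prod, Fintype.card_coe,
              Fintype.card_coe]
            refine Nat.mul_le_mul_right _ ?_
            simp
          calc 16 * _ ≤ 16 * (16 * (S.card * R.card)) := Nat.mul_le_mul_left _ h1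
            _ = (16 * S.card) * (16 * R.card) := by ring
            _ ≤ 64 ^ a.leavesIn D * 64 ^ b.leavesIn D := Nat.mul_le_mul hS hR
            _ = 64 ^ (a.leavesIn D + b.leavesIn D) := (pow_add _ _ _).symm
        · intro y u
          rw [Finset.mem_image]
          refine ⟨(fun z w => u (g z w), ⟨_, hS' y id⟩, ⟨_, hR' y id⟩), Finset.mem_univ _, ?_⟩
          funext x
          simp [eval]

/-- All subfunctions on `D` lie in a set of at most `2 * 64 ^ (leavesIn D)` functions. -/
theorem sub_count' [DecidableEq V] (D : Finset V) (φ : BForm V) :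
    ∃ S : Finset ((V → Bool) → Bool), S.card ≤ 2 * 64 ^ φ.leavesIn D ∧
      ∀ y : V → Bool, (fun b => φ.eval (mix D b y)) ∈ S := by
  classical
  rcases Nat.eq_zero_or_pos (φ.leavesIn D) with h | h
  · refine ⟨Finset.univ.image (fun c : Bool => fun _ : V → Bool => c), ?_, ?_⟩
    · refine le_trans Finset.card_image_le ?_
      rw [h]
      simp
    · intro y
      obtain ⟨c, hc⟩ := sub_const D φ h y
      rw [Finset.mem_image]
      exact ⟨c, Finset.mem_univ _, by funext b; exact (hc b).symm⟩
  · obtain ⟨S, hS, hS'⟩ := sub_count D φ h
    exact ⟨S, by omega, fun y => hS' y id⟩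

end BForm

end Pool.Agent.Helper71.Cliq
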