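import Mathlib

/-! Agreement of a random table with a few fixed functions. -/

set_option autoImplicit false

namespace Pool.Agent.Helper71.Cliq

open Finset

/-- The number of places where two functions agree. -/
def agr {A : Type} [Fintype A] (g T : A → Bool) : ℕ :=
  (Finset.univ.filter fun a => g a = T a).card

theorem agr_le {A : Type} [Fintype A] (g T : A → Bool) : agr g T ≤ Fintype.card A :=
  Finset.card_le_univ _

theorem sum_exp {A : Type} [Fintype A] [DecidableEq A] (g : A → Bool) (l : ℝ) :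
    ∑ T : A → Bool, Real.exp (l * (2 * (agr g T : ℝ) - Fintype.card A)) =
      (2 * Real.cosh l) ^ Fintype.card A := by
  have h1 : ∀ T : A → Bool, Real.exp (l * (2 * (agr g T : ℝ) - Fintype.card A)) =
      ∏ a, (if g a = T a then Real.exp l else Real.exp (-l)) := by
    intro T
    have h2 : ∀ a, (if g a = T a then Real.exp l else Real.exp (-l)) =
        Real.exp (l * (2 * (if g a = T a then 1 else 0) - 1)) := by
      intro a
      split_ifs
      · congr 1; ring
      · congr 1; ring
    simp_rw [h2]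
    rw [← Real.exp_sum, ← Finset.mul_sum, Finset.sum_sub_distrib, ← Finset.mul_sum]
    congr 3
    · rw [agr, Finset.sum_boole]
    · simp
  simp_rw [h1]
  have h3 := Finset.prod_univ_sum (fun _ : A => (Finset.univ : Finset Bool))
    (fun a β => if g a = β then Real.exp l else Real.exp (-l))
  rw [Fintype.piFinset_univ] at h3
  rw [← h3]
  have h4 : ∀ a : A, ∑ β : Bool, (if g a = β then Real.exp l else Real.exp (-l)) =
      2 * Real.cosh l := by
    intro a
    rw [Real.cosh_eq]
    cases h : g a <;> simp [add_comm] <;> ring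
  simp_rw [h4]
  rw [Finset.prod_const, Finset.card_univ]

/-- Chernoff's bound. -/
theorem chernoff {A : Type} [Fintype A] [DecidableEq A] (g : A → Bool) (η : ℝ) (hη : 0 ≤ η) :
    ((Finset.univ.filter fun T : A → Bool =>
      (1 / 2 + η) * (Fintype.card A : ℝ) ≤ agr g T).card : ℝ) ≤
      2 ^ Fintype.card A * Real.exp (-(2 * η ^ 2 * Fintype.card A)) := by
  set N := Fintype.card A with hN
  have h1 := sum_exp g (2 * η)
  rw [← hN] at h1
  have h2 : ((Finset.univ.filter fun T : A → Bool =>
      (1 / 2 + η) * (N : ℝ) ≤ agr g T).card : ℝ) * Real.exp (4 * η ^ 2 * N) ≤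
      ∑ T : A → Bool, Real.exp (2 * η * (2 * (agr g T : ℝ) - N)) := by
    rw [← nsmul_eq_mul, ← Finset.sum_const]
    refine le_trans (Finset.sum_le_sum fun T hT => ?_)
      (Finset.sum_le_sum_of_subset_of_nonneg (Finset.filter_subset _ _)
        fun T _ _ => (Real.exp_pos _).le)
    rw [Finset.mem_filter] at hT
    apply Real.exp_le_exp.2
    have := hT.2
    nlinarith [mul_le_mul_of_nonneg_left this hη]
  have h3 : (2 * Real.cosh (2 * η)) ^ N ≤ 2 ^ N * Real.exp (2 * η ^ 2 * N) := by
    rw [mul_pow]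
    refine mul_le_mul_of_nonneg_left ?_ (by positivity)
    calc Real.cosh (2 * η) ^ N ≤ Real.exp ((2 * η) ^ 2 / 2) ^ N :=
          pow_le_pow_left₀ (Real.cosh_pos _).le (Real.cosh_le_exp_half_sq _) _
      _ = Real.exp (2 * η ^ 2 * N) := by
          rw [← Real.exp_nat_mul]
          congr 1
          ring
  have h4 : (0 : ℝ) < Real.exp (4 * η ^ 2 * N) := Real.exp_pos _
  have h5 : Real.exp (2 * η ^ 2 * N) =
      Real.exp (-(2 * η ^ 2 * N)) * Real.exp (4 * η ^ 2 * N) := by
    rw [← Real.exp_add]
    congr 1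
    ring
  have h6 := h2.trans (h1.le.trans h3)
  rw [h5, ← mul_assoc] at h6
  exact le_of_mul_le_mul_right h6 h4

/-- If each table `T` is approximated by a function of a small set, the mean agreement is
about one half. -/
theorem mean_agr {A : Type} [Fintype A] [DecidableEq A] (S : Finset (A → Bool))
    (g : (A → Bool) → (A → Bool)) (hg : ∀ T, g T ∈ S) (η : ℝ) (hη : 0 ≤ η)
    (hS : (S.card : ℝ) * Real.exp (-(2 * η ^ 2 * Fintype.card A)) ≤ η) :
    ∑ T : A → Bool, (agr (g T) T : ℝ) ≤
      2 ^ Fintype.card A * Fintype.card A * (1 / 2 + 2 * η) := by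
  set N := Fintype.card A with hN
  have hcardT : (Finset.univ : Finset (A → Bool)).card = 2 ^ N := by
    rw [Finset.card_univ, Fintype.card_fun, Fintype.card_bool, hN]
  set bad := Finset.univ.filter fun T : A → Bool => (1 / 2 + η) * (N : ℝ) ≤ agr (g T) T with hbad
  have h1 : (bad.card : ℝ) ≤ η * 2 ^ N := by
    have h2 : bad ⊆ S.biUnion fun f => Finset.univ.filter fun T : A → Bool =>
        (1 / 2 + η) * (N : ℝ) ≤ agr f T := by
      intro T hT
      rw [hbad, Finset.mem_filter] at hT
      rw [Finset.mem_biUnion]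
      exact ⟨g T, hg T, by rw [Finset.mem_filter]; exact hT⟩
    have h3 := le_trans (Finset.card_le_card h2) Finset.card_biUnion_le
    calc (bad.card : ℝ) ≤ ((∑ f ∈ S, (Finset.univ.filter fun T : A → Bool =>
          (1 / 2 + η) * (N : ℝ) ≤ agr f T).card : ℕ) : ℝ) := by exact_mod_cast h3
      _ = ∑ f ∈ S, ((Finset.univ.filter fun T : A → Bool =>
          (1 / 2 + η) * (N : ℝ) ≤ agr f T).card : ℝ) := by push_cast; rfl
      _ ≤ ∑ f ∈ S, (2 ^ N * Real.exp (-(2 * η ^ 2 * N))) :=
          Finset.sum_le_sum fun f _ => chernoff f η hη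
      _ = 2 ^ N * (S.card * Real.exp (-(2 * η ^ 2 * N))) := by
          rw [Finset.sum_const, nsmul_eq_mul]; ring
      _ ≤ 2 ^ N * η := mul_le_mul_of_nonneg_left hS (by positivity)
      _ = η * 2 ^ N := by ring
  have h4 : ∀ T : A → Bool, (agr (g T) T : ℝ) ≤ (1 / 2 + η) * N + (if T ∈ bad then (N : ℝ) else 0) := by
    intro T
    by_cases hT : T ∈ bad
    · rw [if_pos hT]
      have : (agr (g T) T : ℝ) ≤ N := by exact_mod_cast agr_le _ _
      have h5 : 0 ≤ (1 / 2 + η) * (N : ℝ) := by positivity
      linarith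
    · rw [if_neg hT]
      have h5 : ¬ ((1 / 2 + η) * (N : ℝ) ≤ agr (g T) T) := by
        intro h
        exact hT (by rw [hbad, Finset.mem_filter]; exact ⟨Finset.mem_univ _, h⟩)
      push Not at h5
      linarith
  calc ∑ T : A → Bool, (agr (g T) T : ℝ) ≤
        ∑ T : A → Bool, ((1 / 2 + η) * N + (if T ∈ bad then (N : ℝ) else 0)) :=
        Finset.sum_le_sum fun T _ => h4 T
    _ = 2 ^ N * ((1 / 2 + η) * N) + bad.card * N := by
        rw [Finset.sum_add_distrib, Finset.sum_const, hcardT, nsmul_eq_mul]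
        congr 1
        · push_cast; ring
        · rw [Finset.sum_ite_mem, Finset.univ_inter, Finset.sum_const, nsmul_eq_mul]
    _ ≤ 2 ^ N * ((1 / 2 + η) * N) + (η * 2 ^ N) * N :=
        add_le_add le_rfl (mul_le_mul_of_nonneg_right h1 (Nat.cast_nonneg _))
    _ = 2 ^ N * N * (1 / 2 + 2 * η) := by ring

end Pool.Agent.Helper71.Cliq
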