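import Mathlib

/-! A table look-up inside the clique function. -/

set_option autoImplicit false

namespace Pool.Agent.Helper71.Cliq

open Finset

/-- Vertices: row addresses, column addresses, the centre, two vertices for each address bit,
universal vertices. -/
abbrev GV (s t : ℕ) : Type :=
  (Fin s → Bool) ⊕ ((Fin s → Bool) ⊕ (Unit ⊕ (((Fin s ⊕ Fin s) × Bool) ⊕ Fin t)))

/-- Groups of vertices; a clique has at most one vertex in each group. -/
abbrev Gp (s t : ℕ) : Type :=
  Unit ⊕ (Unit ⊕ (Unit ⊕ ((Fin s ⊕ Fin s) ⊕ Fin t)))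

theorem card_Gp (s t : ℕ) : Fintype.card (Gp s t) = 2 * s + 3 + t := by
  simp only [Gp, Fintype.card_sum, Fintype.card_unit, Fintype.card_fin]
  omega

theorem card_GV (s t : ℕ) : Fintype.card (GV s t) = 2 * 2 ^ s + 4 * s + 1 + t := by
  simp only [GV, Fintype.card_sum, Fintype.card_unit, Fintype.card_fin, Fintype.card_prod,
    Fintype.card_bool, Fintype.card_pi, Finset.prod_const, Finset.card_univ]
  omega

/-- The group of a vertex. -/
def grp {s t : ℕ} : GV s t → Gp s t
  | .inl _ => .inl ()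
  | .inr (.inl _) => .inr (.inl ())
  | .inr (.inr (.inl _)) => .inr (.inr (.inl ()))
  | .inr (.inr (.inr (.inl (a, _)))) => .inr (.inr (.inr (.inl a)))
  | .inr (.inr (.inr (.inr j))) => .inr (.inr (.inr (.inr j)))

/-- Half of the adjacency relation of the gadget for the table `T` and the address `b`. -/
def rel {s t : ℕ} (T : (Fin s → Bool) → (Fin s → Bool) → Bool) (b : Fin s ⊕ Fin s → Bool) :
    GV s t → GV s t → Prop
  | .inl A, .inr (.inl B) => T A B = true
  | .inl _, .inr (.inr (.inl _)) => True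
  | .inr (.inl _), .inr (.inr (.inl _)) => True
  | .inl A, .inr (.inr (.inr (.inl (.inl a, β)))) => A a = β
  | .inl _, .inr (.inr (.inr (.inl (.inr _, _)))) => True
  | .inr (.inl _), .inr (.inr (.inr (.inl (.inl _, _)))) => True
  | .inr (.inl B), .inr (.inr (.inr (.inl (.inr a, β)))) => B a = β
  | .inr (.inr (.inl _)), .inr (.inr (.inr (.inl (a, β)))) => b a = β
  | .inr (.inr (.inr (.inl (a, _)))), .inr (.inr (.inr (.inl (a', _)))) => a ≠ a'
  | _, .inr (.inr (.inr (.inr _))) => True
  | _, _ => False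

/-- The gadget graph. -/
def gad {s t : ℕ} (T : (Fin s → Bool) → (Fin s → Bool) → Bool) (b : Fin s ⊕ Fin s → Bool) :
    SimpleGraph (GV s t) :=
  SimpleGraph.fromRel (rel T b)

theorem grp_ne {s t : ℕ} (T : (Fin s → Bool) → (Fin s → Bool) → Bool)
    (b : Fin s ⊕ Fin s → Bool) (u v : GV s t) (h : (gad T b).Adj u v) : grp u ≠ grp v := by
  rw [gad, SimpleGraph.fromRel_adj] at h
  obtain ⟨hne, h⟩ := h
  rcases u with A | B | c | ⟨a | a, β⟩ | j <;> rcases v with A' | B' | c' | ⟨a' | a', β'⟩ | j' <;>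
    simp_all [grp, rel]
  all_goals grind

/-- The representative of a group in the clique that belongs to the address `b`. -/
def rep {s t : ℕ} (b : Fin s ⊕ Fin s → Bool) : Gp s t → GV s t
  | .inl _ => .inl (fun a => b (.inl a))
  | .inr (.inl _) => .inr (.inl (fun a => b (.inr a)))
  | .inr (.inr (.inl _)) => .inr (.inr (.inl ()))
  | .inr (.inr (.inr (.inl a))) => .inr (.inr (.inr (.inl (a, b a))))
  | .inr (.inr (.inr (.inr j))) => .inr (.inr (.inr (.inr j)))

theorem grp_rep {s t : ℕ} (b : Fin s ⊕ Fin s → Bool) (g : Gp s t) : grp (rep b g) = g := by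
  rcases g with ⟨⟩ | ⟨⟩ | ⟨⟩ | a | j <;> rfl

theorem rep_adj {s t : ℕ} (T : (Fin s → Bool) → (Fin s → Bool) → Bool)
    (b : Fin s ⊕ Fin s → Bool) (hT : T (fun a => b (.inl a)) (fun a => b (.inr a)) = true)
    (g g' : Gp s t) (h : g ≠ g') : (gad T b).Adj (rep b g) (rep b g') := by
  rw [gad, SimpleGraph.fromRel_adj]
  refine ⟨fun hh => h (by rw [← grp_rep b g, ← grp_rep b g', hh]), ?_⟩
  rcases g with ⟨⟩ | ⟨⟩ | ⟨⟩ | (a | a) | j <;> rcases g' with ⟨⟩ | ⟨⟩ | ⟨⟩ | (a' | a') | j' <;>
    simp_all [rep, rel]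

theorem gad_clique {s t : ℕ} (T : (Fin s → Bool) → (Fin s → Bool) → Bool)
    (b : Fin s ⊕ Fin s → Bool) :
    ¬ (gad (t := t) T b).CliqueFree (2 * s + 3 + t) ↔
      T (fun a => b (.inl a)) (fun a => b (.inr a)) = true := by
  classical
  constructor
  · intro h
    simp only [SimpleGraph.CliqueFree, not_forall, not_not] at h
    obtain ⟨K, hK⟩ := h
    have hinj : Set.InjOn (grp : GV s t → Gp s t) K := by
      intro u hu v hv huv
      by_contra hne
      exact grp_ne T b u v (hK.isClique hu hv hne) huv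
    have himg : K.image grp = Finset.univ := by
      apply Finset.eq_univ_of_card
      rw [Finset.card_image_of_injOn hinj, hK.card_eq, card_Gp]
    have hex : ∀ g : Gp s t, ∃ u ∈ K, grp u = g := by
      intro g
      have : g ∈ K.image grp := by rw [himg]; exact Finset.mem_univ _
      simpa using this
    have hadj : ∀ u ∈ K, ∀ v ∈ K, u ≠ v → rel T b u v ∨ rel T b v u := by
      intro u hu v hv huv
      have := hK.isClique hu hv huv
      rw [gad, SimpleGraph.fromRel_adj] at this
      exact this.2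
    obtain ⟨u1, hu1, hg1⟩ := hex (.inl ())
    obtain ⟨u2, hu2, hg2⟩ := hex (.inr (.inl ()))
    obtain ⟨u3, hu3, hg3⟩ := hex (.inr (.inr (.inl ())))
    rcases u1 with A | _ | _ | ⟨_, _⟩ | _ <;> simp [grp] at hg1
    rcases u2 with _ | B | _ | ⟨_, _⟩ | _ <;> simp [grp] at hg2
    rcases u3 with _ | _ | c | ⟨_, _⟩ | _ <;> simp [grp] at hg3
    have hA : A = fun a => b (.inl a) := by
      funext a
      obtain ⟨u4, hu4, hg4⟩ := hex (.inr (.inr (.inr (.inl (.inl a)))))
      rcases u4 with _ | _ | _ | ⟨a', β⟩ | _ <;> simp [grp] at hg4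
      subst hg4
      have h1 := hadj _ hu1 _ hu4 (by simp)
      have h2 := hadj _ hu3 _ hu4 (by simp)
      simp [rel] at h1 h2
      rw [h1, h2]
    have hB : B = fun a => b (.inr a) := by
      funext a
      obtain ⟨u4, hu4, hg4⟩ := hex (.inr (.inr (.inr (.inl (.inr a)))))
      rcases u4 with _ | _ | _ | ⟨a', β⟩ | _ <;> simp [grp] at hg4
      subst hg4
      have h1 := hadj _ hu2 _ hu4 (by simp)
      have h2 := hadj _ hu3 _ hu4 (by simp)
      simp [rel] at h1 h2
      rw [h1, h2]
    have h12 := hadj _ hu1 _ hu2 (by simp)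
    simp [rel] at h12
    rw [← hA, ← hB]
    exact h12
  · intro hT h
    refine h (Finset.univ.map ⟨rep b, ?_⟩) ?_
    · intro g g' hgg
      rw [← grp_rep b g, ← grp_rep b g', hgg]
    · rw [SimpleGraph.isNClique_iff]
      refine ⟨?_, ?_⟩
      · intro u hu v hv huv
        simp only [Finset.coe_map, Function.Embedding.coeFn_mk, Finset.coe_univ, Set.image_univ,
          Set.mem_range] at hu hv
        obtain ⟨g, rfl⟩ := hu
        obtain ⟨g', rfl⟩ := hv
        exact rep_adj T b hT g g' (fun hh => huv (by rw [hh]))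
      · rw [Finset.card_map, Finset.card_univ, card_Gp]

end Pool.Agent.Helper71.Cliq
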