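import Pool.Agent.Helper71.Cliq.Graph

/-! The gadget graphs as graphs on `Fin n`, and the blocks of edge variables. -/

set_option autoImplicit false

namespace Pool.Agent.Helper71.Cliq

open Finset

/-- The edge variables of a graph as a Boolean assignment. -/
noncomputable def chi {n : ℕ} (G : SimpleGraph (Fin n)) (e : Sym2 (Fin n)) : Bool :=
  @decide (e ∈ G.edgeSet) (Classical.dec _)

theorem chi_eq_true {n : ℕ} (G : SimpleGraph (Fin n)) (e : Sym2 (Fin n)) :
    chi G e = true ↔ e ∈ G.edgeSet := by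
  simp [chi]

theorem chi_congr {n : ℕ} (G G' : SimpleGraph (Fin n)) (e : Sym2 (Fin n))
    (h : e ∈ G.edgeSet ↔ e ∈ G'.edgeSet) : chi G e = chi G' e := by
  rw [Bool.eq_iff_iff, chi_eq_true, chi_eq_true, h]

/-- The centre. -/
abbrev ctr {s t : ℕ} : GV s t := .inr (.inr (.inl ()))

/-- The bit vertices. -/
abbrev bit {s t : ℕ} (a : (Fin s ⊕ Fin s) × Bool) : GV s t := .inr (.inr (.inr (.inl a)))

theorem rel_congr_b {s t : ℕ} (T : (Fin s → Bool) → (Fin s → Bool) → Bool)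
    (b b' : Fin s ⊕ Fin s → Bool) (u v : GV s t) (h : ¬ (u = ctr ∧ ∃ a, v = bit a)) :
    rel T b u v ↔ rel T b' u v := by
  rcases u with A | B | c | ⟨a | a, β⟩ | j <;> rcases v with A' | B' | c' | ⟨a' | a', β'⟩ | j' <;>
    first | rfl | simp_all [rel]

theorem rel_congr_T {s t : ℕ} (T T' : (Fin s → Bool) → (Fin s → Bool) → Bool)
    (b : Fin s ⊕ Fin s → Bool) (u v : GV s t) (h : u = ctr ∨ v = ctr) :
    rel T b u v ↔ rel T' b u v := by
  rcases u with A | B | c | ⟨a | a, β⟩ | j <;> rcases v with A' | B' | c' | ⟨a' | a', β'⟩ | j' <;>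
    first | rfl | simp_all [rel]

/-- The graph on `Fin n`. -/
def inst {n s t : ℕ} (ι : GV s t ↪ Fin n) (T : (Fin s → Bool) → (Fin s → Bool) → Bool)
    (b : Fin s ⊕ Fin s → Bool) : SimpleGraph (Fin n) :=
  (gad T b).map ι

theorem inst_clique {n s t : ℕ} (ι : GV s t ↪ Fin n)
    (T : (Fin s → Bool) → (Fin s → Bool) → Bool) (b : Fin s ⊕ Fin s → Bool) :
    ¬ (inst ι T b).CliqueFree (2 * s + 3 + t) ↔
      T (fun a => b (.inl a)) (fun a => b (.inr a)) = true := by
  have : Nonempty (GV s t) := ⟨ctr⟩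
  rw [inst, SimpleGraph.cliqueFree_map_iff, gad_clique]

/-- The block of edge variables at the centre. -/
def blk {n s t : ℕ} (ι : GV s t ↪ Fin n) : Finset (Sym2 (Fin n)) :=
  Finset.univ.image fun a : (Fin s ⊕ Fin s) × Bool => s(ι ctr, ι (bit a))

theorem mem_edge {n s t : ℕ} (ι : GV s t ↪ Fin n)
    (T : (Fin s → Bool) → (Fin s → Bool) → Bool) (b : Fin s ⊕ Fin s → Bool)
    (e : Sym2 (Fin n)) :
    e ∈ (inst ι T b).edgeSet ↔ ∃ u v, (gad T b).Adj u v ∧ s(ι u, ι v) = e := by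
  induction e using Sym2.ind with
  | _ x y =>
    rw [SimpleGraph.mem_edgeSet, inst, SimpleGraph.map_adj]
    constructor
    · rintro ⟨u, v, h, hx, hy⟩
      exact ⟨u, v, h, by rw [hx, hy]⟩
    · rintro ⟨u, v, h, he⟩
      rw [Sym2.eq_iff] at he
      rcases he with ⟨h1, h2⟩ | ⟨h1, h2⟩
      · exact ⟨u, v, h, h1, h2⟩
      · exact ⟨v, u, h.symm, h2, h1⟩

theorem chi_outside {n s t : ℕ} (ι : GV s t ↪ Fin n)
    (T : (Fin s → Bool) → (Fin s → Bool) → Bool) (b b' : Fin s ⊕ Fin s → Bool)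
    (e : Sym2 (Fin n)) (he : e ∉ blk ι) : chi (inst ι T b) e = chi (inst ι T b') e := by
  have key : ∀ b b' : Fin s ⊕ Fin s → Bool, e ∈ (inst ι T b).edgeSet →
      e ∈ (inst ι T b').edgeSet := by
    intro b b' h
    rw [mem_edge] at h ⊢
    obtain ⟨u, v, h, huv⟩ := h
    refine ⟨u, v, ?_, huv⟩
    have h1 : ¬ (u = ctr ∧ ∃ a, v = bit a) := by
      rintro ⟨rfl, a, rfl⟩
      exact he (by rw [← huv]; exact Finset.mem_image.2 ⟨a, Finset.mem_univ _, rfl⟩)
    have h2 : ¬ (v = ctr ∧ ∃ a, u = bit a) := by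
      rintro ⟨rfl, a, rfl⟩
      exact he (by rw [← huv, Sym2.eq_swap]; exact Finset.mem_image.2 ⟨a, Finset.mem_univ _, rfl⟩)
    rw [gad, SimpleGraph.fromRel_adj] at h ⊢
    rw [← rel_congr_b T b b' u v h1, ← rel_congr_b T b b' v u h2]
    exact h
  exact chi_congr _ _ _ ⟨key b b', key b' b⟩

theorem chi_inside {n s t : ℕ} (ι : GV s t ↪ Fin n)
    (T T' : (Fin s → Bool) → (Fin s → Bool) → Bool) (b : Fin s ⊕ Fin s → Bool)
    (e : Sym2 (Fin n)) (he : e ∈ blk ι) : chi (inst ι T b) e = chi (inst ι T' b) e := by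
  have key : ∀ T T' : (Fin s → Bool) → (Fin s → Bool) → Bool, e ∈ (inst ι T b).edgeSet →
      e ∈ (inst ι T' b).edgeSet := by
    intro T T' h
    rw [mem_edge] at h ⊢
    obtain ⟨u, v, h, huv⟩ := h
    refine ⟨u, v, ?_, huv⟩
    rw [blk, Finset.mem_image] at he
    obtain ⟨a, -, ha⟩ := he
    rw [← ha, Sym2.eq_iff] at huv
    have h1 : u = ctr ∨ v = ctr := by
      rcases huv with ⟨h1, -⟩ | ⟨-, h1⟩
      · exact Or.inl (ι.injective h1)
      · exact Or.inr (ι.injective h1)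
    rw [gad, SimpleGraph.fromRel_adj] at h ⊢
    rw [← rel_congr_T T T' b u v h1, ← rel_congr_T T T' b v u h1.symm]
    exact h
  exact chi_congr _ _ _ ⟨key T T', key T' T⟩

/-- The assignment splits into a part inside the block, which depends only on the address, and
a part outside, which depends only on the table. -/
theorem chi_mix {n s t : ℕ} (ι : GV s t ↪ Fin n)
    (T T₀ : (Fin s → Bool) → (Fin s → Bool) → Bool) (b b₀ : Fin s ⊕ Fin s → Bool) :
    chi (inst ι T b) = fun e => if e ∈ blk ι then chi (inst ι T₀ b) e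
      else chi (inst ι T b₀) e := by
  funext e
  by_cases he : e ∈ blk ι
  · rw [if_pos he, chi_inside ι T T₀ b e he]
  · rw [if_neg he, chi_outside ι T b b₀ e he]

/-! ### Many disjoint blocks -/

/-- Enumeration of the bit vertices. -/
noncomputable def enum (s : ℕ) : ((Fin s ⊕ Fin s) × Bool) ≃ Fin (4 * s) :=
  Fintype.equivFinOfCardEq (by simp; omega)

theorem exists_iota {n s t : ℕ} (hn : 2 * 2 ^ s + 4 * s + 1 + t ≤ n) (c : Fin n) (o : ℕ)
    (hc : (c : ℕ) < o) (ho : o + 4 * s ≤ n) :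
    ∃ ι : GV s t ↪ Fin n, ι ctr = c ∧
      ∀ a, ((ι (bit a) : Fin n) : ℕ) = o + (enum s a : ℕ) := by
  classical
  have hlt : ∀ a : (Fin s ⊕ Fin s) × Bool, o + (enum s a : ℕ) < n := by
    intro a
    have := (enum s a).2
    omega
  let f : GV s t → Fin n := fun u => match u with
    | .inr (.inr (.inr (.inl a))) => ⟨o + (enum s a : ℕ), hlt a⟩
    | _ => c
  let S : Finset (GV s t) := insert ctr (Finset.univ.image (fun a => bit a))
  have hfctr : f ctr = c := rfl
  have hfbit : ∀ a, f (bit a) = ⟨o + (enum s a : ℕ), hlt a⟩ := fun a => rfl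
  have hinj : Set.InjOn f S := by
    intro u hu v hv huv
    simp only [S, Finset.coe_insert, Finset.coe_image, Finset.coe_univ, Set.image_univ,
      Set.mem_insert_iff, Set.mem_range] at hu hv
    rcases hu with rfl | ⟨a, rfl⟩ <;> rcases hv with rfl | ⟨a', rfl⟩
    · rfl
    · rw [hfctr, hfbit, Fin.ext_iff] at huv
      simp only at huv
      omega
    · rw [hfctr, hfbit, Fin.ext_iff] at huv
      simp only at huv
      omega
    · rw [hfbit, hfbit, Fin.ext_iff] at huv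
      simp only at huv
      have : enum s a = enum s a' := Fin.ext (by omega)
      rw [(enum s).injective this]
  obtain ⟨t', ht1, -, ht2⟩ := Finset.exists_subsuperset_card_eq
    (s := S.image f) (t := (Finset.univ : Finset (Fin n))) (n := Fintype.card (GV s t))
    (Finset.subset_univ _) (le_trans Finset.card_image_le (Finset.card_le_univ _))
    (by rw [Finset.card_univ, Fintype.card_fin, card_GV]; exact hn)
  obtain ⟨g, hg⟩ := Finset.exists_equiv_extend_of_card_eq (α := GV s t) (t := t') ht2.symm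
    (s := S) (f := f) ht1 hinj
  refine ⟨g.toEmbedding.trans ⟨Subtype.val, Subtype.val_injective⟩, ?_, ?_⟩
  · show ((g ctr : t') : Fin n) = c
    rw [hg ctr (Finset.mem_insert_self _ _), hfctr]
  · intro a
    show (((g (bit a) : t') : Fin n) : ℕ) = _
    rw [hg (bit a) (Finset.mem_insert_of_mem (Finset.mem_image_of_mem _ (Finset.mem_univ a))),
      hfbit]

/-- There are many embeddings whose blocks are pairwise disjoint. -/
theorem exists_blocks {n s t : ℕ} (hn : 2 * 2 ^ s + 4 * s + 1 + t ≤ n) :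
    ∃ ι : Fin (n / 2) × Fin (n / 2 / (4 * s)) → (GV s t ↪ Fin n),
      ∀ p q, p ≠ q → Disjoint (blk (ι p)) (blk (ι q)) := by
  classical
  have h1 : ∀ p : Fin (n / 2) × Fin (n / 2 / (4 * s)), n / 2 + 4 * s * p.2 + 4 * s ≤ n := by
    intro p
    have h2 := p.2.2
    have h3 : 4 * s * (n / 2 / (4 * s)) ≤ n / 2 := Nat.mul_div_le _ _
    have h4 : 4 * s * (p.2 + 1) ≤ 4 * s * (n / 2 / (4 * s)) := Nat.mul_le_mul_left _ h2
    have h5 : 4 * s * ((p.2 : ℕ) + 1) = 4 * s * p.2 + 4 * s := by ring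
    have h6 : n / 2 + n / 2 ≤ n := by omega
    omega
  have h0 : ∀ p : Fin (n / 2) × Fin (n / 2 / (4 * s)), (p.1 : ℕ) < n := by
    intro p
    have := p.1.2
    omega
  have hex : ∀ p : Fin (n / 2) × Fin (n / 2 / (4 * s)), ∃ ι : GV s t ↪ Fin n,
      ι ctr = ⟨p.1, h0 p⟩ ∧
      ∀ a, ((ι (bit a) : Fin n) : ℕ) = (n / 2 + 4 * s * p.2) + (enum s a : ℕ) := fun p =>
    exists_iota hn ⟨p.1, h0 p⟩ (n / 2 + 4 * s * p.2) (by have := p.1.2; simp only; omega) (h1 p)
  choose ι hι1 hι2 using hex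
  refine ⟨ι, ?_⟩
  intro p q hpq
  rw [Finset.disjoint_left]
  intro e hp hq
  apply hpq
  rw [blk, Finset.mem_image] at hp hq
  obtain ⟨a, -, ha⟩ := hp
  obtain ⟨a', -, ha'⟩ := hq
  rw [← ha', Sym2.eq_iff] at ha
  rw [hι1, hι1] at ha
  simp only [Fin.ext_iff, hι2] at ha
  have hq1 := q.1.2
  have hp1 := p.1.2
  rcases ha with ⟨h2, h3⟩ | ⟨h2, h3⟩
  · have h4 := (enum s a).2
    have h5 := (enum s a').2
    have h6 : (p.2 : ℕ) = q.2 := by
      by_contra hne
      rcases Nat.lt_or_gt_of_ne hne with h | h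
      · have : 4 * s * ((p.2 : ℕ) + 1) ≤ 4 * s * q.2 := Nat.mul_le_mul_left _ h
        have h5 : 4 * s * ((p.2 : ℕ) + 1) = 4 * s * p.2 + 4 * s := by ring
        omega
      · have : 4 * s * ((q.2 : ℕ) + 1) ≤ 4 * s * p.2 := Nat.mul_le_mul_left _ h
        have h5 : 4 * s * ((q.2 : ℕ) + 1) = 4 * s * q.2 + 4 * s := by ring
        omega
    exact Prod.ext (Fin.ext h2) (Fin.ext h6)
  · omega

end Pool.Agent.Helper71.Cliq
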