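import Mathlib

/-! Choice of the parameters. -/

set_option autoImplicit false

namespace Pool.Agent.Helper71.Cliq

open Filter

theorem nblocks (n s : ℕ) (hspos : 1 ≤ s) (hn2 : 2 ≤ n) (L : ℝ) (hL : 0 < L)
    (hsR : (s : ℝ) ≤ 2 * L) (hLn : 100 * L ≤ n) :
    (n : ℝ) ^ 2 / (144 * L) ≤ ((n / 2 * (n / 2 / (4 * s)) : ℕ) : ℝ) := by
  have hh : (n : ℝ) / 3 ≤ ((n / 2 : ℕ) : ℝ) := by
    have h8 : n ≤ 3 * (n / 2) := by omega
    have : (n : ℝ) ≤ 3 * ((n / 2 : ℕ) : ℝ) := by exact_mod_cast h8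
    linarith
  have hM : (n : ℝ) / (48 * L) ≤ ((n / 2 / (4 * s) : ℕ) : ℝ) := by
    have h9 : n / 2 < 4 * s * (n / 2 / (4 * s) + 1) := by
      have h10 := Nat.div_add_mod (n / 2) (4 * s)
      have h11 := Nat.mod_lt (n / 2) (show 0 < 4 * s by omega)
      have h12 : 4 * s * (n / 2 / (4 * s) + 1) = 4 * s * (n / 2 / (4 * s)) + 4 * s := by ring
      omega
    have h13 : ((n / 2 : ℕ) : ℝ) ≤ 4 * s * (((n / 2 / (4 * s) : ℕ) : ℝ) + 1) := by
      exact_mod_cast h9.le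
    generalize ((n / 2 / (4 * s) : ℕ) : ℝ) = q at h13
    have h14 : q + 1 ≥ 0 := by
      by_contra h
      push Not at h
      have : 4 * (s : ℝ) * (q + 1) ≤ 0 := by
        apply mul_nonpos_of_nonneg_of_nonpos _ h.le
        positivity
      have h0 : (2 : ℝ) ≤ n := by exact_mod_cast hn2
      linarith
    have h15 : 4 * (s : ℝ) * (q + 1) ≤ 8 * L * (q + 1) := by
      apply mul_le_mul_of_nonneg_right _ h14
      linarith
    rw [div_le_iff₀ (by positivity)]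
    linarith
  rw [Nat.cast_mul]
  have h16 : (n : ℝ) ^ 2 / (144 * L) = (n / 3) * (n / (48 * L)) := by
    rw [div_mul_div_comm]
    congr 1
    · ring
    · ring
  rw [h16]
  exact mul_le_mul hh hM (by positivity) (Nat.cast_nonneg _)

theorem params (ε : ℝ) (hε : 0 < ε) : ∃ n₀ : ℕ, 2 ≤ n₀ ∧ ∀ n : ℕ, n₀ ≤ n → ∀ k : ℕ,
    2 * Real.logb 2 n + 1 ≤ k → (k : ℝ) ≤ (1 - ε) * n →
    ∃ s t : ℕ, 1 ≤ s ∧ k = 2 * s + 3 + t ∧ 2 * 2 ^ s + 4 * s + 1 + t ≤ n ∧
      ε ^ 2 * (n : ℝ) ^ 2 / 1024 ≤ (4 : ℝ) ^ s ∧ (4 : ℝ) ^ s ≤ (n : ℝ) ^ 2 ∧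
      (s : ℝ) ≤ 2 * Real.log n ∧
      (n : ℝ) ^ 2 / (144 * Real.log n) ≤ ((n / 2 * (n / 2 / (4 * s)) : ℕ) : ℝ) := by
  have h1 : ∀ᶠ x : ℝ in atTop, ‖Real.log x‖ ≤ (min ε 1 / 1000) * ‖x‖ :=
    Real.isLittleO_log_id_atTop.bound (by positivity)
  have h2 : ∀ᶠ n : ℕ in atTop, ‖Real.log (n : ℝ)‖ ≤ (min ε 1 / 1000) * ‖(n : ℝ)‖ :=
    tendsto_natCast_atTop_atTop.eventually h1
  have h3 : ∀ᶠ n : ℕ in atTop, ⌈1000 / min ε 1⌉₊ ≤ n := eventually_ge_atTop _
  obtain ⟨n₁, hn₁⟩ := (h2.and h3).exists_forall_of_atTop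
  refine ⟨max n₁ 2, le_max_right _ _, fun n hn k hk1 hk2 => ?_⟩
  obtain ⟨ha, hb⟩ := hn₁ n (le_trans (le_max_left _ _) hn)
  have hn2 : 2 ≤ n := le_trans (le_max_right _ _) hn
  have hn2R : (2 : ℝ) ≤ n := by exact_mod_cast hn2
  set e := min ε 1 with he
  have he0 : 0 < e := lt_min hε one_pos
  have he1 : e ≤ 1 := min_le_right _ _
  have heε : e ≤ ε := min_le_left _ _
  have hlog0 : 0 < Real.log n := Real.log_pos (by linarith)
  rw [Real.norm_of_nonneg hlog0.le, Real.norm_of_nonneg (by linarith : (0 : ℝ) ≤ n)] at ha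
  have hbig : 1000 ≤ e * n := by
    have : 1000 / e ≤ n := (Nat.le_ceil _).trans (by exact_mod_cast hb)
    rw [div_le_iff₀ he0] at this
    linarith
  have hlog2a : (1 : ℝ) / 2 ≤ Real.log 2 := by
    have := Real.log_two_gt_d9
    linarith
  -- since `k ≤ (1 - ε) n` and `k ≥ 0`, `ε ≤ 1`
  have hε1 : ε ≤ 1 := by
    have : (0 : ℝ) ≤ (1 - ε) * n := le_trans (Nat.cast_nonneg k) hk2
    by_contra h
    push Not at h
    nlinarith
  have hee : e = ε := min_eq_left hε1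
  rw [hee] at ha hbig he1
  clear_value e
  subst hee
  set m := ⌊e * n / 8⌋₊ with hm
  have hm1 : (m : ℝ) ≤ e * n / 8 := Nat.floor_le (by positivity)
  have hm2 : e * n / 8 < m + 1 := Nat.lt_floor_add_one _
  have hm100 : 100 ≤ m := by
    have : (100 : ℝ) < m + 1 := by linarith
    have h' : (99 : ℝ) < m := by linarith
    have : 99 < m := by exact_mod_cast h'
    omega
  set s := Nat.log 2 m with hs
  have hs1 : 2 ^ s ≤ m := Nat.pow_log_le_self 2 (by omega)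
  have hs2 : m < 2 ^ (s + 1) := Nat.lt_pow_succ_log_self (by norm_num) m
  have hspos : 1 ≤ s := by
    by_contra h
    have : s = 0 := by omega
    rw [this] at hs2
    omega
  have hs1R : (2 : ℝ) ^ s ≤ e * n / 8 := by
    have : ((2 ^ s : ℕ) : ℝ) ≤ m := by exact_mod_cast hs1
    push_cast at this
    linarith
  have hs2R : e * n / 32 ≤ (2 : ℝ) ^ s := by
    have : ((m + 1 : ℕ) : ℝ) ≤ ((2 ^ (s + 1) : ℕ) : ℝ) := by exact_mod_cast hs2
    push_cast at this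
    rw [pow_succ] at this
    linarith
  -- `s ≤ log₂ n - 3`
  have hsl : (s : ℝ) + 3 ≤ Real.logb 2 n := by
    rw [Real.le_logb_iff_rpow_le (by norm_num) (by linarith)]
    have : (2 : ℝ) ^ ((s : ℝ) + 3) = 2 ^ s * 8 := by
      rw [Real.rpow_add (by norm_num), Real.rpow_natCast]
      norm_num
    rw [this]
    nlinarith
  have hlb : Real.logb 2 n ≤ 2 * Real.log n := by
    rw [Real.logb, div_le_iff₀ (by linarith)]
    nlinarith
  have hsR : (s : ℝ) ≤ 2 * Real.log n := by linarith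
  have hk3 : 2 * s + 3 ≤ k := by
    have : (2 * (s : ℝ) + 3) ≤ k := by linarith
    exact_mod_cast this
  refine ⟨s, k - (2 * s + 3), hspos, by omega, ?_, ?_, ?_, hsR, ?_⟩
  · have hR : (2 * 2 ^ s + 4 * s + 1 + (k - (2 * s + 3) : ℕ) : ℝ) ≤ n := by
      rw [Nat.cast_sub hk3]
      push_cast
      have h5 : 4 * (s : ℝ) ≤ 8 * Real.log n := by linarith
      nlinarith
    exact_mod_cast hR
  · have : (4 : ℝ) ^ s = 2 ^ s * 2 ^ s := by
      rw [← mul_pow]; norm_num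
    rw [this]
    have h0 : 0 ≤ e * n / 32 := by positivity
    nlinarith [mul_le_mul hs2R hs2R h0 (by positivity)]
  · have : (4 : ℝ) ^ s = 2 ^ s * 2 ^ s := by
      rw [← mul_pow]; norm_num
    rw [this]
    have h6 : (2 : ℝ) ^ s ≤ n := by nlinarith
    have h7 : (0 : ℝ) < 2 ^ s := by positivity
    nlinarith
  · exact nblocks n s hspos hn2 (Real.log n) hlog0 hsR (by linarith)

end Pool.Agent.Helper71.Cliq
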