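import Pool.Agent.Helper71.Cliq.Inst
import Pool.Agent.Helper71.Cliq.BForm
import Pool.Agent.Helper71.Cliq.Chern
import Pool.Agent.Helper71.Cliq.Num

/-! Randomised Boolean formulas for the clique problem. -/

set_option autoImplicit false

namespace Pool.Agent.Helper71.Cliq

open Finset

/-- Addresses. -/
abbrev Ad (s : ℕ) : Type := (Fin s → Bool) × (Fin s → Bool)

theorem card_Ad (s : ℕ) : Fintype.card (Ad s) = 4 ^ s := by
  rw [Fintype.card_prod, Fintype.card_fun, Fintype.card_bool, Fintype.card_fin,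
    ← Nat.mul_pow]

/-- The graph for the table `T` and the address `a`. -/
def gr {n s t : ℕ} (ι : GV s t ↪ Fin n) (T : Ad s → Bool) (a : Ad s) : SimpleGraph (Fin n) :=
  inst ι (fun A B => T (A, B)) (Sum.elim a.1 a.2)

theorem gr_clique {n s t : ℕ} (ι : GV s t ↪ Fin n) (T : Ad s → Bool) (a : Ad s) :
    ¬ (gr ι T a).CliqueFree (2 * s + 3 + t) ↔ T a = true := by
  rw [gr, inst_clique]
  simp

theorem agr_formula {n s t : ℕ} (ι : GV s t ↪ Fin n) (φ : BForm (Sym2 (Fin n))) (η : ℝ)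
    (hη : 0 ≤ η)
    (h : 2 * (64 : ℝ) ^ φ.leavesIn (blk ι) * Real.exp (-(2 * η ^ 2 * 4 ^ s)) ≤ η) :
    ∑ T : Ad s → Bool, (agr (fun a => φ.eval (chi (gr ι T a))) T : ℝ) ≤
      2 ^ (4 ^ s) * 4 ^ s * (1 / 2 + 2 * η) := by
  classical
  obtain ⟨S, hS, hS'⟩ := BForm.sub_count' (blk ι) φ
  let T₀ : (Fin s → Bool) → (Fin s → Bool) → Bool := fun _ _ => false
  let b₀ : Fin s ⊕ Fin s → Bool := fun _ => false
  let S' : Finset (Ad s → Bool) :=
    S.image fun G a => G (chi (inst ι T₀ (Sum.elim a.1 a.2)))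
  have h1 := mean_agr S' (fun T => fun a => φ.eval (chi (gr ι T a))) (fun T => by
    rw [Finset.mem_image]
    refine ⟨_, hS' (chi (inst ι (fun A B => T (A, B)) b₀)), ?_⟩
    funext a
    rw [gr, chi_mix ι (fun A B => T (A, B)) T₀ (Sum.elim a.1 a.2) b₀]
    rfl) η hη (by
      rw [card_Ad]
      push_cast
      refine le_trans ?_ h
      refine mul_le_mul_of_nonneg_right ?_ (Real.exp_pos _).le
      calc (S'.card : ℝ) ≤ (S.card : ℝ) := by exact_mod_cast Finset.card_image_le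
        _ ≤ ((2 * 64 ^ φ.leavesIn (blk ι) : ℕ) : ℝ) := by exact_mod_cast hS
        _ = 2 * (64 : ℝ) ^ φ.leavesIn (blk ι) := by push_cast; rfl)
  rw [card_Ad] at h1
  push_cast at h1
  exact h1

/-- Lower bound for the expected number of leaves in one block. -/
theorem block_bound {n s t : ℕ} (ι : GV s t ↪ Fin n) (δ : ℝ) (hδ : 0 < δ)
    (Ω : Type) [Fintype Ω] (w : Ω → ℝ) (hw : ∀ ω, 0 ≤ w ω) (hw1 : ∑ ω, w ω = 1)
    (F : Ω → BForm (Sym2 (Fin n)))
    (hF : ∀ (T : Ad s → Bool) (a : Ad s), 1 / 2 + δ ≤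
      ∑ ω, w ω * (if (F ω).eval (chi (gr ι T a)) = T a then 1 else 0)) :
    δ / 2 * ((δ ^ 2 / 8 * 4 ^ s - Real.log (8 / δ)) / 5) ≤
      ∑ ω, w ω * ((F ω).leavesIn (blk ι) : ℝ) := by
  classical
  set η := δ / 4 with hη
  have hη0 : 0 < η := by positivity
  set Lg : Finset Ω := Finset.univ.filter fun ω =>
    ¬ (2 * (64 : ℝ) ^ (F ω).leavesIn (blk ι) * Real.exp (-(2 * η ^ 2 * 4 ^ s)) ≤ η) with hLg
  set R : ℝ := 2 ^ (4 ^ s) * 4 ^ s with hR
  have hRpos : 0 < R := by positivity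
  have hcard : ((Finset.univ : Finset (Ad s → Bool)).card : ℝ) = 2 ^ (4 ^ s) := by
    rw [Finset.card_univ, Fintype.card_fun, Fintype.card_bool, card_Ad]
    push_cast
    rfl
  have hcardA : ((Finset.univ : Finset (Ad s)).card : ℝ) = 4 ^ s := by
    rw [Finset.card_univ, card_Ad]
    push_cast
    rfl
  -- total agreement
  have htot : R * (1 / 2 + δ) ≤ ∑ ω, w ω *
      ∑ T : Ad s → Bool, (agr (fun a => (F ω).eval (chi (gr ι T a))) T : ℝ) := by
    have h1 : ∑ T : Ad s → Bool, ∑ a : Ad s, (1 / 2 + δ) ≤ ∑ T : Ad s → Bool, ∑ a : Ad s,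
        ∑ ω, w ω * (if (F ω).eval (chi (gr ι T a)) = T a then 1 else 0) :=
      Finset.sum_le_sum fun T _ => Finset.sum_le_sum fun a _ => hF T a
    rw [Finset.sum_const, Finset.sum_const, nsmul_eq_mul, nsmul_eq_mul, hcard, hcardA,
      ← mul_assoc] at h1
    refine h1.trans (le_of_eq ?_)
    have h2 : ∀ T : Ad s → Bool, ∑ a : Ad s,
        ∑ ω, w ω * (if (F ω).eval (chi (gr ι T a)) = T a then (1 : ℝ) else 0) =
        ∑ ω, w ω * (agr (fun a => (F ω).eval (chi (gr ι T a))) T : ℝ) := by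
      intro T
      rw [Finset.sum_comm]
      refine Finset.sum_congr rfl fun ω _ => ?_
      rw [← Finset.mul_sum, agr, Finset.sum_boole]
    simp_rw [h2]
    rw [Finset.sum_comm]
    refine Finset.sum_congr rfl fun ω _ => ?_
    rw [← Finset.mul_sum]
  have hub : ∀ ω, w ω * ∑ T : Ad s → Bool,
      (agr (fun a => (F ω).eval (chi (gr ι T a))) T : ℝ) ≤
      R * (w ω * (1 / 2 + 2 * η) + (if ω ∈ Lg then w ω else 0)) := by
    intro ω
    by_cases hω : ω ∈ Lg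
    · rw [if_pos hω]
      have h3 : ∑ T : Ad s → Bool, (agr (fun a => (F ω).eval (chi (gr ι T a))) T : ℝ) ≤ R := by
        calc _ ≤ ∑ T : Ad s → Bool, (4 : ℝ) ^ s := by
              refine Finset.sum_le_sum fun T _ => ?_
              have := agr_le (fun a => (F ω).eval (chi (gr ι T a))) T
              rw [card_Ad] at this
              exact_mod_cast this
          _ = R := by rw [Finset.sum_const, nsmul_eq_mul, hcard]
      have h4 := mul_le_mul_of_nonneg_left h3 (hw ω)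
      have h5 : 0 ≤ R * (w ω * (1 / 2 + 2 * η)) :=
        mul_nonneg hRpos.le (mul_nonneg (hw ω) (by positivity))
      linarith
    · rw [if_neg hω]
      have h3 : 2 * (64 : ℝ) ^ (F ω).leavesIn (blk ι) * Real.exp (-(2 * η ^ 2 * 4 ^ s)) ≤ η := by
        by_contra h
        exact hω (by rw [hLg, Finset.mem_filter]; exact ⟨Finset.mem_univ _, h⟩)
      have h4 := mul_le_mul_of_nonneg_left (agr_formula ι (F ω) η hη0.le h3) (hw ω)
      rw [← hR] at h4
      linarith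
  have hW : δ / 2 ≤ ∑ ω ∈ Lg, w ω := by
    have h5 := htot.trans (Finset.sum_le_sum fun ω _ => hub ω)
    rw [← Finset.mul_sum, Finset.sum_add_distrib, ← Finset.sum_mul, hw1,
      Finset.sum_ite_mem, Finset.univ_inter] at h5
    have h6 := le_of_mul_le_mul_left h5 hRpos
    rw [hη] at h6
    linarith
  -- leaves of the large formulas
  set l : ℝ := (δ ^ 2 / 8 * 4 ^ s - Real.log (8 / δ)) / 5 with hl
  have hsum0 : 0 ≤ ∑ ω, w ω * ((F ω).leavesIn (blk ι) : ℝ) :=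
    Finset.sum_nonneg fun ω _ => mul_nonneg (hw ω) (Nat.cast_nonneg _)
  rcases le_or_gt l 0 with hl0 | hl0
  · have : δ / 2 * l ≤ 0 := mul_nonpos_of_nonneg_of_nonpos (by positivity) hl0
    linarith
  have hlarge : ∀ ω ∈ Lg, l ≤ ((F ω).leavesIn (blk ι) : ℝ) := by
    intro ω hω
    rw [hLg, Finset.mem_filter] at hω
    have h7 := hω.2
    push Not at h7
    set m := (F ω).leavesIn (blk ι) with hm
    have h8 : Real.log η < Real.log (2 * (64 : ℝ) ^ m * Real.exp (-(2 * η ^ 2 * 4 ^ s))) :=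
      Real.log_lt_log hη0 h7
    rw [Real.log_mul (by positivity) (Real.exp_pos _).ne', Real.log_exp,
      Real.log_mul (by norm_num) (by positivity), Real.log_pow] at h8
    have h9 : Real.log 64 ≤ 5 := by
      have : (64 : ℝ) = 2 ^ 6 := by norm_num
      rw [this, Real.log_pow]
      have := Real.log_two_lt_d9
      push_cast
      linarith
    have h10 : Real.log (8 / δ) = Real.log 2 - Real.log η := by
      rw [← Real.log_div (by norm_num) hη0.ne', hη]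
      congr 1
      field_simp
      norm_num
    have h11 : 2 * η ^ 2 * 4 ^ s = δ ^ 2 / 8 * 4 ^ s := by rw [hη]; ring
    have h12 : (m : ℝ) * Real.log 64 ≤ m * 5 := mul_le_mul_of_nonneg_left h9 (Nat.cast_nonneg _)
    rw [hl, div_le_iff₀ (by norm_num)]
    linarith
  calc δ / 2 * l ≤ (∑ ω ∈ Lg, w ω) * l := mul_le_mul_of_nonneg_right hW hl0.le
    _ = ∑ ω ∈ Lg, w ω * l := by rw [Finset.sum_mul]
    _ ≤ ∑ ω ∈ Lg, w ω * ((F ω).leavesIn (blk ι) : ℝ) :=
        Finset.sum_le_sum fun ω hω => mul_le_mul_of_nonneg_left (hlarge ω hω) (hw ω)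
    _ ≤ ∑ ω, w ω * ((F ω).leavesIn (blk ι) : ℝ) :=
        Finset.sum_le_sum_of_subset_of_nonneg (Finset.subset_univ _)
          fun ω _ _ => mul_nonneg (hw ω) (Nat.cast_nonneg _)

/-- Randomised Boolean formulas with two-sided error for `k`-clique. -/
theorem rand_main (ε δ : ℝ) (hε : 0 < ε) (hδ : 0 < δ) :
    ∃ c : ℝ, 0 < c ∧ ∃ n₀ : ℕ, ∀ n : ℕ, n₀ ≤ n → ∀ k : ℕ,
      2 * Real.logb 2 n + 1 ≤ k → (k : ℝ) ≤ (1 - ε) * n →
      ∀ (Ω : Type) [Fintype Ω] (w : Ω → ℝ) (F : Ω → BForm (Sym2 (Fin n))),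
        (∀ ω, 0 ≤ w ω) → ∑ ω, w ω = 1 →
        (∀ G : SimpleGraph (Fin n), 1 / 2 + δ ≤
          ∑ ω, w ω * @ite ℝ ((F ω).eval (chi G) = true ↔ ¬ G.CliqueFree k)
            (Classical.dec _) 1 0) →
        c * (n : ℝ) ^ 4 / Real.log n ≤ ∑ ω, w ω * ((F ω).size : ℝ) := by
  classical
  obtain ⟨n₁, hn₁, hp⟩ := params ε hε
  -- size needed for the logarithm
  obtain ⟨n₂, hn₂⟩ := exists_nat_ge (16384 * Real.log (8 / δ) / (δ ^ 2 * ε ^ 2))
  refine ⟨δ ^ 3 * ε ^ 2 / 23592960, by positivity, max (max n₁ n₂) 2, ?_⟩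
  intro n hn k hk1 hk2 Ω _ w F hw hw1 hF
  have hn1 : n₁ ≤ n := le_trans (le_trans (le_max_left _ _) (le_max_left _ _)) hn
  have hn2 : n₂ ≤ n := le_trans (le_trans (le_max_right _ _) (le_max_left _ _)) hn
  have hn3 : 2 ≤ n := le_trans (le_max_right _ _) hn
  have hnR : (2 : ℝ) ≤ n := by exact_mod_cast hn3
  have hlog0 : 0 < Real.log n := Real.log_pos (by linarith)
  obtain ⟨s, t, hs, rfl, hcard, h4s, -, -, hblocks⟩ := hp n hn1 k hk1 hk2
  obtain ⟨ι, hι⟩ := exists_blocks (n := n) (s := s) (t := t) hcard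
  have hblk : ∀ p, δ / 2 * ((δ ^ 2 / 8 * 4 ^ s - Real.log (8 / δ)) / 5) ≤
      ∑ ω, w ω * ((F ω).leavesIn (blk (ι p)) : ℝ) := by
    intro p
    refine block_bound (ι p) δ hδ Ω w hw hw1 F ?_
    intro T a
    refine (hF (gr (ι p) T a)).trans (le_of_eq ?_)
    refine Finset.sum_congr rfl fun ω _ => ?_
    congr 1
    have : ((F ω).eval (chi (gr (ι p) T a)) = true ↔ ¬ (gr (ι p) T a).CliqueFree (2 * s + 3 + t))
        ↔ (F ω).eval (chi (gr (ι p) T a)) = T a := by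
      rw [gr_clique]
      exact Bool.eq_iff_iff.symm
    simp only [this]
  -- sum over the blocks
  have hsum : ((n / 2 * (n / 2 / (4 * s)) : ℕ) : ℝ) *
      (δ / 2 * ((δ ^ 2 / 8 * 4 ^ s - Real.log (8 / δ)) / 5)) ≤ ∑ ω, w ω * ((F ω).size : ℝ) := by
    have h1 : ∑ p : Fin (n / 2) × Fin (n / 2 / (4 * s)),
        (δ / 2 * ((δ ^ 2 / 8 * 4 ^ s - Real.log (8 / δ)) / 5)) ≤
        ∑ p : Fin (n / 2) × Fin (n / 2 / (4 * s)),
          ∑ ω, w ω * ((F ω).leavesIn (blk (ι p)) : ℝ) :=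
      Finset.sum_le_sum fun p _ => hblk p
    rw [Finset.sum_const, Finset.card_univ, Fintype.card_prod, Fintype.card_fin,
      Fintype.card_fin, nsmul_eq_mul] at h1
    refine h1.trans ?_
    rw [Finset.sum_comm]
    refine Finset.sum_le_sum fun ω _ => ?_
    rw [← Finset.mul_sum]
    refine mul_le_mul_of_nonneg_left ?_ (hw ω)
    have := BForm.sum_leavesIn Finset.univ (fun p => blk (ι p)) hι (F ω)
    exact_mod_cast this
  refine le_trans ?_ hsum
  -- numerics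
  have hlogle : Real.log (8 / δ) ≤ δ ^ 2 * ε ^ 2 * (n : ℝ) ^ 2 / 16384 := by
    have h2 : 16384 * Real.log (8 / δ) / (δ ^ 2 * ε ^ 2) ≤ n := hn₂.trans (by exact_mod_cast hn2)
    rw [div_le_iff₀ (by positivity)] at h2
    have h3 : (n : ℝ) ≤ (n : ℝ) ^ 2 := by nlinarith
    have h4 : (n : ℝ) * (δ ^ 2 * ε ^ 2) ≤ (n : ℝ) ^ 2 * (δ ^ 2 * ε ^ 2) :=
      mul_le_mul_of_nonneg_right h3 (by positivity)
    linarith
  have hin : δ ^ 2 * ε ^ 2 * (n : ℝ) ^ 2 / 16384 ≤ δ ^ 2 / 8 * 4 ^ s - Real.log (8 / δ) := by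
    have h5 : δ ^ 2 / 8 * (ε ^ 2 * (n : ℝ) ^ 2 / 1024) ≤ δ ^ 2 / 8 * 4 ^ s :=
      mul_le_mul_of_nonneg_left h4s (by positivity)
    linarith
  have hfin : δ / 2 * (δ ^ 2 * ε ^ 2 * (n : ℝ) ^ 2 / 16384 / 5) ≤
      δ / 2 * ((δ ^ 2 / 8 * 4 ^ s - Real.log (8 / δ)) / 5) :=
    mul_le_mul_of_nonneg_left (div_le_div_of_nonneg_right hin (by norm_num)) (by positivity)
  calc δ ^ 3 * ε ^ 2 / 23592960 * (n : ℝ) ^ 4 / Real.log n =
        ((n : ℝ) ^ 2 / (144 * Real.log n)) *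
          (δ / 2 * (δ ^ 2 * ε ^ 2 * (n : ℝ) ^ 2 / 16384 / 5)) := by
        field_simp
        ring
    _ ≤ _ := mul_le_mul hblocks hfin (by positivity) (Nat.cast_nonneg _)

end Pool.Agent.Helper71.Cliq
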